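import Pool.Agent.P8H18.AA.Edge
import Pool.Agent.P8H18.MF.Min

/-!
# Square-root cancellation for almost all elliptic curves over a number field

`K` is any number field.  If `L(E, s)` has the analytic continuation predicted by Hasse and Weil, without
zeros for `Re s > 1`, then the sums `∑_{N v ≤ y} a_v(E)` are `O(y^(1+ε))`, and the Euler product
converges for `Re s > 1`.  The theorem proves this for almost all elliptic curves
`y² = x³ + a x + b` over `K` as far as `y ≤ X^(1/5)`, where `X` bounds the coordinates of `a`, `b`, for all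
`y` simultaneously.
-/

set_option autoImplicit false
set_option linter.unusedSectionVars false
open Classical

namespace Pool.Agent.Results.MP_7ed9c3_nt.AlmostAllCurves

open NumberField IsDedekindDomain Filter Topology

variable {K : Type} [Field K] [NumberField K]

/-- The equation `y² = x³ + a x + b`. -/
def short {R : Type} [CommRing R] (a b : R) : WeierstrassCurve R where
  a₁ := 0
  a₂ := 0
  a₃ := 0
  a₄ := a
  a₆ := b

/-- `V v` is, for every `v`, an integral model of `E` with discriminant minimal at `v`. -/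
def MinimalModels (E : WeierstrassCurve K)
    (V : HeightOneSpectrum (𝓞 K) → WeierstrassCurve (𝓞 K)) : Prop :=
  ∀ v : HeightOneSpectrum (𝓞 K),
    (∃ C : WeierstrassCurve.VariableChange K, C • E = (V v).map (algebraMap (𝓞 K) K)) ∧
    ∀ W : WeierstrassCurve (𝓞 K),
      (∃ C : WeierstrassCurve.VariableChange K, C • E = W.map (algebraMap (𝓞 K) K)) →
        ∀ n : ℕ, (V v).Δ ∈ v.asIdeal ^ n → W.Δ ∈ v.asIdeal ^ n

/-- `a_v = N v - #(affine points of the reduction)`, computed from a model `W` that is minimal at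
`v`. -/
noncomputable def trace (W : WeierstrassCurve (𝓞 K)) (v : HeightOneSpectrum (𝓞 K)) : ℤ :=
  ((Ideal.absNorm v.asIdeal : ℕ) : ℤ) -
    ((Nat.card {p : (𝓞 K ⧸ v.asIdeal) × (𝓞 K ⧸ v.asIdeal) //
      p.2 ^ 2 + Ideal.Quotient.mk v.asIdeal W.a₁ * p.1 * p.2
        + Ideal.Quotient.mk v.asIdeal W.a₃ * p.2
      = p.1 ^ 3 + Ideal.Quotient.mk v.asIdeal W.a₂ * p.1 ^ 2
        + Ideal.Quotient.mk v.asIdeal W.a₄ * p.1
        + Ideal.Quotient.mk v.asIdeal W.a₆} : ℕ) : ℤ)

/-- The reciprocal of the Euler factor of the problem at `v`, computed from a model `W` that is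
minimal at `v`. -/
noncomputable def localPoly (W : WeierstrassCurve (𝓞 K)) (v : HeightOneSpectrum (𝓞 K)) (s : ℂ) : ℂ :=
  1 - (trace W v : ℂ) * ((Ideal.absNorm v.asIdeal : ℕ) : ℂ) ^ (-s)
    + (if W.Δ ∈ v.asIdeal then (0 : ℂ) else 1)
        * ((Ideal.absNorm v.asIdeal : ℕ) : ℂ) ^ (1 - 2 * s)

/-- The sum of the `a_v` over the primes `v` with `N v ≤ y`; if `full` is false, the primes above `6` are
left out. -/
noncomputable def traceSum (full : Prop) (V : HeightOneSpectrum (𝓞 K) → WeierstrassCurve (𝓞 K))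
    (y : ℝ) : ℝ :=
  ∑ᶠ v ∈ {v : HeightOneSpectrum (𝓞 K) | ((Ideal.absNorm v.asIdeal : ℕ) : ℝ) ≤ y},
    if full ∨ (6 : 𝓞 K) ∉ v.asIdeal then (trace (V v) v : ℝ) else 0

/-- The logarithm of the product of the Euler factors at the primes `v` with `y < N v ≤ z`; if `full` is
false, the primes above `6` are left out. -/
noncomputable def logProduct (full : Prop) (V : HeightOneSpectrum (𝓞 K) → WeierstrassCurve (𝓞 K))
    (s : ℂ) (y z : ℝ) : ℂ :=
  ∑ᶠ v ∈ {v : HeightOneSpectrum (𝓞 K) | y < ((Ideal.absNorm v.asIdeal : ℕ) : ℝ) ∧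
      ((Ideal.absNorm v.asIdeal : ℕ) : ℝ) ≤ z},
    if full ∨ (6 : 𝓞 K) ∉ v.asIdeal then -Complex.log (localPoly (V v) v s) else 0

/-- The `L`-series of the problem, computed from the models `V v`; if `full` is false, the factors at
the primes above `6` are left out. -/
noncomputable def LSeries (full : Prop) (V : HeightOneSpectrum (𝓞 K) → WeierstrassCurve (𝓞 K))
    (s : ℂ) : ℂ :=
  ∏' v : HeightOneSpectrum (𝓞 K),
    if full ∨ (6 : 𝓞 K) ∉ v.asIdeal then (localPoly (V v) v s)⁻¹ else 1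

/-- The logarithm of the `L`-series. -/
noncomputable def logL (full : Prop) (V : HeightOneSpectrum (𝓞 K) → WeierstrassCurve (𝓞 K))
    (s : ℂ) : ℂ :=
  ∑' v : HeightOneSpectrum (𝓞 K),
    if full ∨ (6 : 𝓞 K) ∉ v.asIdeal then -Complex.log (localPoly (V v) v s) else 0

/-- The family: `y² = x³ + a x + b` is an elliptic curve, the equation is minimal at all primes that
do not divide `6`, and, if `full` holds, all primes `v` above `6` divide `a` and divide `b` exactly
once. -/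
def Family (full : Prop) (a b : 𝓞 K) : Prop :=
  4 * a ^ 3 + 27 * b ^ 2 ≠ 0 ∧ ∀ v : HeightOneSpectrum (𝓞 K),
    ((6 : 𝓞 K) ∈ v.asIdeal → full → a ∈ v.asIdeal ∧ b ∈ v.asIdeal ∧ b ∉ v.asIdeal ^ 2) ∧
      ((6 : 𝓞 K) ∉ v.asIdeal → ¬ (a ∈ v.asIdeal ^ 4 ∧ b ∈ v.asIdeal ^ 6))

/-- The pairs `(a, b)` of the family such that the coordinates of `a` and `b` in the basis `β` are at
most `X` in absolute value. -/
def pairs {ι : Type} (full : Prop) (β : Module.Basis ι ℤ (𝓞 K)) (X : ℕ) : Set (𝓞 K × 𝓞 K) :=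
  {p | Family full p.1 p.2 ∧ (∀ i, |β.repr p.1 i| ≤ X) ∧ ∀ i, |β.repr p.2 i| ≤ X}

/-- **Square-root cancellation up to `X^(1/5)`**, with the constant `L`; convergence of the Euler
product for `Re s > 1` up to `X^(1/5)`; and a bound for the logarithm of the `L`-series near the edge
`Re s = 3/2` of the half plane of absolute convergence. -/
def Regular (full : Prop) (V : HeightOneSpectrum (𝓞 K) → WeierstrassCurve (𝓞 K)) (X : ℕ)
    (D : ℝ → ℝ) (D₀ L : ℝ) : Prop :=
  (∀ y : ℝ, 1 ≤ y → y ^ 5 ≤ X → |traceSum full V y| ≤ L * y * (1 + Real.log y) ^ 2) ∧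
  (∀ (σ : ℝ) (s : ℂ) (y z : ℝ), 1 < σ → σ ≤ s.re → 1 ≤ y → y ≤ z → z ^ 5 ≤ X →
    ‖logProduct full V s y z‖ ≤ D σ * (1 + L) * (1 + ‖s‖) * y ^ (-((σ - 1) / 2))) ∧
  ∀ s : ℂ, 3 / 2 < s.re → Complex.exp (logL full V s) = LSeries full V s ∧
    ‖logL full V s‖ ≤ D₀ * (1 + L) * (1 + ‖s‖) +
      D₀ * (1 + 1 / (s.re - 3 / 2)) * (X : ℝ) ^ (-((s.re - 3 / 2) / 10))

section proof

open Pool.Agent.P8H18.MF Pool.Agent.P8H18.AA Pool.Agent.H921R2.TatePole Pool.Agent.H341R2
open Pool.Agent.H341R2.EC (IsModel IsMinAt red aff)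

theorem isMin {a b : 𝓞 K} {V : HeightOneSpectrum (𝓞 K) → WeierstrassCurve (𝓞 K)}
    (hV : MinimalModels ((short a b).map (algebraMap (𝓞 K) K)) V) (v : HeightOneSpectrum (𝓞 K)) :
    IsMinAt ((sw a b).map (algebraMap (𝓞 K) K)) v (V v) := hV v

theorem trace_eq (W : WeierstrassCurve (𝓞 K)) (v : HeightOneSpectrum (𝓞 K)) :
    trace W v = (nm v : ℤ) - (aff (red v W) : ℤ) := rfl

theorem card_v' (v : HeightOneSpectrum (𝓞 K)) : Nat.card (𝓞 K ⧸ v.asIdeal) = nm v := by
  rw [Nat.card_eq_fintype_card]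
  exact card_v v

theorem trace_away {full : Prop} {a b : 𝓞 K} (hf : Family full a b)
    {V : HeightOneSpectrum (𝓞 K) → WeierstrassCurve (𝓞 K)}
    (hV : MinimalModels ((short a b).map (algebraMap (𝓞 K) K)) V) (v : HeightOneSpectrum (𝓞 K))
    (h6 : (6 : 𝓞 K) ∉ v.asIdeal) : trace (V v) v =
      tr (Ideal.Quotient.mk v.asIdeal a) (Ideal.Quotient.mk v.asIdeal b) := by
  obtain ⟨h1, h2⟩ := min_away hf.1 h6 ((hf.2 v).2 h6) (isMin hV v)
  rw [trace_eq, h1]
  unfold tr
  have h3 := card_v v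
  simp only [h3]

theorem trace_six {full : Prop} (hfull : full) {a b : 𝓞 K} (hf : Family full a b)
    {V : HeightOneSpectrum (𝓞 K) → WeierstrassCurve (𝓞 K)}
    (hV : MinimalModels ((short a b).map (algebraMap (𝓞 K) K)) V) (v : HeightOneSpectrum (𝓞 K))
    (h6 : (6 : 𝓞 K) ∈ v.asIdeal) : trace (V v) v = 0 ∧ (V v).Δ ∈ v.asIdeal := by
  obtain ⟨ha, hb, hb2⟩ := (hf.2 v).1 h6 hfull
  obtain ⟨h1, h2⟩ := min_six hf.1 h6 ha hb hb2 (isMin hV v)
  refine ⟨?_, h2⟩
  rw [trace_eq, h1, card_v', sub_self]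

theorem term_eq {full : Prop} {a b : 𝓞 K} (hf : Family full a b)
    {V : HeightOneSpectrum (𝓞 K) → WeierstrassCurve (𝓞 K)}
    (hV : MinimalModels ((short a b).map (algebraMap (𝓞 K) K)) V)
    (v : HeightOneSpectrum (𝓞 K)) :
    (if full ∨ (6 : 𝓞 K) ∉ v.asIdeal then (trace (V v) v : ℝ) else 0) = tv v a b := by
  unfold tv
  by_cases h6 : (6 : 𝓞 K) ∈ v.asIdeal
  · rw [if_pos h6]
    by_cases hfull : full
    · rw [if_pos (Or.inl hfull), (trace_six hfull hf hV v h6).1, Int.cast_zero]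
    · rw [if_neg (by rintro (h | h); exacts [hfull h, h h6])]
  · rw [if_neg h6, if_pos (Or.inr h6), trace_away hf hV v h6]

theorem pow_eq (v : HeightOneSpectrum (𝓞 K)) (s : ℂ) :
    ((Ideal.absNorm v.asIdeal : ℕ) : ℂ) ^ (1 - 2 * s) = (nm v : ℂ) * xv v s ^ 2 := by
  have h1 : (nm v : ℂ) ≠ 0 := nm_ne v
  have h2 : ((nm v : ℕ) : ℂ) ^ (1 - 2 * s) = (nm v : ℂ) * xv v s ^ 2 := by
    unfold xv
    rw [← Complex.cpow_nat_mul, sub_eq_add_neg, Complex.cpow_add _ _ h1, Complex.cpow_one]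
    congr 2
    push_cast
    ring
  exact h2

theorem log_eq {full : Prop} {a b : 𝓞 K} (hf : Family full a b)
    {V : HeightOneSpectrum (𝓞 K) → WeierstrassCurve (𝓞 K)}
    (hV : MinimalModels ((short a b).map (algebraMap (𝓞 K) K)) V)
    (v : HeightOneSpectrum (𝓞 K)) (s : ℂ) :
    (if full ∨ (6 : 𝓞 K) ∉ v.asIdeal then -Complex.log (localPoly (V v) v s) else 0) =
      lv s v a b := by
  unfold lv
  by_cases h6 : (6 : 𝓞 K) ∈ v.asIdeal
  · rw [if_pos h6]
    by_cases hfull : full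
    · obtain ⟨h1, h2⟩ := trace_six hfull hf hV v h6
      have h3 : localPoly (V v) v s = 1 := by
        unfold localPoly
        rw [h1, if_pos h2]
        simp
      rw [if_pos (Or.inl hfull), h3, Complex.log_one, neg_zero]
    · rw [if_neg (by rintro (h | h); exacts [hfull h, h h6])]
  · rw [if_neg h6, if_pos (Or.inr h6)]
    obtain ⟨_, h2⟩ := min_away hf.1 h6 ((hf.2 v).2 h6) (isMin hV v)
    have h3 : localPoly (V v) v s =
        lpol (Ideal.Quotient.mk v.asIdeal a) (Ideal.Quotient.mk v.asIdeal b) (xv v s) := by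
      unfold localPoly lpol
      rw [trace_away hf hV v h6, pow_eq]
      have h3 := card_v v
      by_cases hD : (V v).Δ ∈ v.asIdeal
      · rw [if_pos hD, ep_true (h2.1 hD)]
        simp only [h3]
        rfl
      · rw [if_neg hD, ep_false (fun h => hD (h2.2 h))]
        simp only [h3]
        rfl
    rw [h3]
    rfl

theorem tv_six {v : HeightOneSpectrum (𝓞 K)} (h6 : (6 : 𝓞 K) ∈ v.asIdeal) (a b : 𝓞 K) :
    tv v a b = 0 := by
  unfold tv
  rw [if_pos h6]

theorem lv_six {v : HeightOneSpectrum (𝓞 K)} (h6 : (6 : 𝓞 K) ∈ v.asIdeal) (a b : 𝓞 K) (s : ℂ) :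
    lv s v a b = 0 := by
  unfold lv
  rw [if_pos h6]

theorem traceSum_eq {full : Prop} {a b : 𝓞 K} (hf : Family full a b)
    {V : HeightOneSpectrum (𝓞 K) → WeierstrassCurve (𝓞 K)}
    (hV : MinimalModels ((short a b).map (algebraMap (𝓞 K) K)) V) {y : ℝ} (hy : 0 ≤ y) :
    traceSum full V y = TT a b (⌊y⌋₊ + 1) := by
  unfold traceSum TT
  simp_rw [term_eq hf hV]
  refine finsum_mem_eq_sum_of_inter_support_eq _ ?_
  ext v
  simp only [Set.mem_inter_iff, Set.mem_ofPred_eq, Function.mem_support, Finset.mem_coe, mem_Pr]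
  constructor
  · rintro ⟨h1, h2⟩
    refine ⟨⟨?_, fun h6 => h2 (tv_six h6 a b)⟩, h2⟩
    exact Nat.lt_succ_of_le (Nat.le_floor h1)
  · rintro ⟨⟨h1, _⟩, h2⟩
    exact ⟨(Nat.le_floor_iff hy).1 (Nat.lt_succ_iff.1 h1), h2⟩

theorem logProduct_eq {full : Prop} {a b : 𝓞 K} (hf : Family full a b)
    {V : HeightOneSpectrum (𝓞 K) → WeierstrassCurve (𝓞 K)}
    (hV : MinimalModels ((short a b).map (algebraMap (𝓞 K) K)) V) (s : ℂ) {y z : ℝ} (hy : 0 ≤ y)
    (hz : 0 ≤ z) :
    logProduct full V s y z = ∑ v ∈ Bk K ⌊y⌋₊ ⌊z⌋₊, lv s v a b := by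
  unfold logProduct
  simp_rw [log_eq hf hV]
  refine finsum_mem_eq_sum_of_inter_support_eq _ ?_
  ext v
  simp only [Set.mem_inter_iff, Set.mem_ofPred_eq, Function.mem_support, Finset.mem_coe, mem_Bk]
  constructor
  · rintro ⟨⟨h0, h1⟩, h2⟩
    exact ⟨⟨⟨(Nat.floor_lt hy).2 h0, Nat.le_floor h1⟩, fun h6 => h2 (lv_six h6 a b s)⟩, h2⟩
  · rintro ⟨⟨⟨h0, h1⟩, _⟩, h2⟩
    exact ⟨⟨(Nat.floor_lt hy).1 h0, (Nat.le_floor_iff hz).1 h1⟩, h2⟩

theorem logL_eq {full : Prop} {a b : 𝓞 K} (hf : Family full a b)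
    {V : HeightOneSpectrum (𝓞 K) → WeierstrassCurve (𝓞 K)}
    (hV : MinimalModels ((short a b).map (algebraMap (𝓞 K) K)) V) (s : ℂ) :
    logL full V s = ∑' v : HeightOneSpectrum (𝓞 K), lv s v a b := by
  unfold logL
  exact tsum_congr fun v => log_eq hf hV v s

theorem LSeries_eq {full : Prop} {a b : 𝓞 K} (hf : Family full a b)
    {V : HeightOneSpectrum (𝓞 K) → WeierstrassCurve (𝓞 K)}
    (hV : MinimalModels ((short a b).map (algebraMap (𝓞 K) K)) V) {s : ℂ} (hs : 3 / 2 < s.re) :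
    Complex.exp (logL full V s) = LSeries full V s := by
  have h := tprod_psi 1 hs a b
  rw [one_mul, ← logL_eq hf hV s] at h
  rw [← h.tprod_eq]
  unfold LSeries
  refine tprod_congr fun v => ?_
  rw [psi_eq_exp 1 (by linarith), one_mul, ← log_eq hf hV v s]
  by_cases h6 : full ∨ (6 : 𝓞 K) ∉ v.asIdeal
  · rw [if_pos h6, if_pos h6, Complex.exp_neg, Complex.exp_log]
    by_cases h6' : (6 : 𝓞 K) ∈ v.asIdeal
    · have hfull : full := by
        rcases h6 with h | h
        · exact h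
        · exact absurd h6' h
      obtain ⟨h1, h2⟩ := trace_six hfull hf hV v h6'
      unfold localPoly
      rw [h1, if_pos h2]
      simp
    · obtain ⟨_, h2⟩ := min_away hf.1 h6' ((hf.2 v).2 h6') (isMin hV v)
      have h3 : localPoly (V v) v s =
          lpol (Ideal.Quotient.mk v.asIdeal a) (Ideal.Quotient.mk v.asIdeal b) (xv v s) := by
        unfold localPoly lpol
        rw [trace_away hf hV v h6', pow_eq]
        have h3 := card_v v
        by_cases hD : (V v).Δ ∈ v.asIdeal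
        · rw [if_pos hD, ep_true (h2.1 hD)]
          simp only [h3]
          rfl
        · rw [if_neg hD, ep_false (fun h => hD (h2.2 h))]
          simp only [h3]
          rfl
      rw [h3]
      exact lpol_ne (six_ne h6') _ _ (sz_lt_one v (by linarith))
  · rw [if_neg h6, if_neg h6, Complex.exp_zero]

/-- the constants of the second part -/
noncomputable def DD (K : Type) [Field K] [NumberField K] (σ : ℝ) : ℝ :=
  if h : 1 < σ then Classical.choose (log_sum_bound (K := K) h) else 0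

/-- the constant of the third part -/
noncomputable def D3 (K : Type) [Field K] [NumberField K] : ℝ := Classical.choose (edge (K := K))

theorem regular_of_small {full : Prop} {a b : 𝓞 K} (hf : Family full a b)
    {V : HeightOneSpectrum (𝓞 K) → WeierstrassCurve (𝓞 K)}
    (hV : MinimalModels ((short a b).map (algebraMap (𝓞 K) K)) V) {X : ℕ} (hX : 1 ≤ X) {L : ℝ}
    (hL : 0 < L) (h : Small L X a b) : Regular full V X (DD K) (D3 K) L := by
  have hfl : ∀ y : ℝ, 1 ≤ y → y ^ 5 ≤ X → 1 ≤ ⌊y⌋₊ ∧ ⌊y⌋₊ ^ 5 ≤ X := by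
    intro y hy hyX
    refine ⟨Nat.le_floor (by exact_mod_cast hy), ?_⟩
    have h1 : ((⌊y⌋₊ : ℕ) : ℝ) ^ 5 ≤ y ^ 5 := by
      gcongr
      exact Nat.floor_le (by linarith)
    exact_mod_cast h1.trans hyX
  refine ⟨?_, ?_, ?_⟩
  · intro y hy hyX
    obtain ⟨h1, h2⟩ := hfl y hy hyX
    have h3 := h ⌊y⌋₊ h1 h2
    rw [traceSum_eq hf hV (by linarith)]
    refine h3.trans ?_
    have h4 : (1 : ℝ) ≤ ((⌊y⌋₊ : ℕ) : ℝ) := by exact_mod_cast h1
    have h5 : ((⌊y⌋₊ : ℕ) : ℝ) ≤ y := Nat.floor_le (by linarith)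
    have h6 : Real.log ((⌊y⌋₊ : ℕ) : ℝ) ≤ Real.log y := Real.log_le_log (by linarith) h5
    have h7 : 0 ≤ Real.log ((⌊y⌋₊ : ℕ) : ℝ) := Real.log_nonneg h4
    gcongr
  · intro σ s y z hσ hs hy hyz hz
    have hz1 : 1 ≤ z := hy.trans hyz
    obtain ⟨h1, h2⟩ := hfl z hz1 hz
    rw [logProduct_eq hf hV s (by linarith) (by linarith)]
    have hD : DD K σ = Classical.choose (log_sum_bound (K := K) hσ) := by
      unfold DD
      rw [dif_pos hσ]
    have hspec := Classical.choose_spec (log_sum_bound (K := K) hσ)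
    rw [← hD] at hspec
    refine hspec.2 a b L hL.le s hs y ⌊y⌋₊ ⌊z⌋₊ hy (Nat.lt_floor_add_one y)
      (Nat.le_floor (by exact_mod_cast hy)) (Nat.floor_mono hyz) fun m hm1 hm2 => ?_
    exact h m hm1 ((Nat.pow_le_pow_left hm2 5).trans h2)
  · intro s hs
    refine ⟨LSeries_eq hf hV hs, ?_⟩
    rw [logL_eq hf hV s]
    exact (Classical.choose_spec (edge (K := K))).2 X hX a b L hL.le h s hs

theorem pairs_eq {ι : Type} [Fintype ι] (full : Prop) (β : Module.Basis ι ℤ (𝓞 K)) (X : ℕ)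
    (P : 𝓞 K → 𝓞 K → Prop) : {p | p ∈ pairs full β X ∧ P p.1 p.2} =
      ((((box β X ×ˢ box β X).filter (fun p => Red full p.1 p.2 ∧ P p.1 p.2)) :
        Finset (𝓞 K × 𝓞 K)) : Set (𝓞 K × 𝓞 K)) := by
  ext p
  rw [Finset.coe_filter]
  simp only [pairs, Set.mem_ofPred_eq, Finset.mem_product, mem_box]
  constructor
  · rintro ⟨⟨h1, h2, h3⟩, h4⟩
    exact ⟨⟨h2, h3⟩, h1, h4⟩
  · rintro ⟨⟨h2, h3⟩, h1, h4⟩
    exact ⟨⟨h1, h2, h3⟩, h4⟩

theorem pairs_eq' {ι : Type} [Fintype ι] (full : Prop) (β : Module.Basis ι ℤ (𝓞 K)) (X : ℕ) :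
    pairs full β X = (((box β X ×ˢ box β X).filter (fun p => Red full p.1 p.2) :
        Finset (𝓞 K × 𝓞 K)) : Set (𝓞 K × 𝓞 K)) := by
  have h := pairs_eq full β X (fun _ _ => True)
  simpa using h

end proof

/-- **Square-root cancellation for almost all elliptic curves over `K`.**  Let `K` be a number field,
`β` a `ℤ`-basis of its ring of integers.  There are constants `C`, `D₀` and `D σ` (`σ > 1`) such that for
all large `X`, all choices of minimal models and all `L > 0` the following holds for all curves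
`y² = x³ + a x + b` of the family with coordinates of `a`, `b` at most `X`, but at most the proportion
`C / L²` of them:
1. `|∑_{N v ≤ y} a_v| ≤ L y (1 + log y)²` for all `y ≤ X^(1/5)`;
2. for `Re s ≥ σ > 1` and `1 ≤ y ≤ z ≤ X^(1/5)` the logarithm of the product of the Euler factors of
`L(E, s)` at the primes with `y < N v ≤ z` is at most `D σ (1 + L) (1 + |s|) y^(-(σ-1)/2)`;
3. for `η = Re s - 3/2 > 0`, `log L(E, s)` is at most `D₀ (1 + L) (1 + |s|) + D₀ (1 + 1/η) X^(-η/10)`,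
so `L(E, s)` stays bounded and away from `0` as `Re s` approaches `3/2` up to a distance
`O(log log X / log X)`.
This holds for the family of all equations minimal away from `6` (`full` false, the primes above `6` left
out) and for the family with the condition at the primes above `6` (`full` true, all primes). -/
theorem result (K : Type) [Field K] [NumberField K] {ι : Type} [Fintype ι]
    (β : Module.Basis ι ℤ (𝓞 K)) (full : Prop) :
    ∃ (C D₀ : ℝ) (D : ℝ → ℝ) (X₀ : ℕ), ∀ X : ℕ, X₀ ≤ X →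
    0 < (pairs full β X).ncard ∧
    ∀ V : 𝓞 K → 𝓞 K → HeightOneSpectrum (𝓞 K) → WeierstrassCurve (𝓞 K),
      (∀ a b : 𝓞 K, Family full a b →
        MinimalModels ((short a b).map (algebraMap (𝓞 K) K)) (V a b)) →
      ∀ L : ℝ, 0 < L →
        ({p | p ∈ pairs full β X ∧ ¬ Regular full (V p.1 p.2) X D D₀ L}.ncard : ℝ) ≤
          C / L ^ 2 * (pairs full β X).ncard := by
  obtain ⟨C, hC, X₁, hX₁⟩ := Pool.Agent.P8H18.AA.main_count (K := K) β full
  refine ⟨C, D3 K, DD K, max X₁ 1, fun X hX => ?_⟩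
  obtain ⟨h1, h2⟩ := hX₁ X (le_of_max_le_left hX)
  have hX1 : 1 ≤ X := le_of_max_le_right hX
  refine ⟨?_, fun V hV L hL => ?_⟩
  · rw [pairs_eq', Set.ncard_coe_finset]
    exact h1
  · have h3 := h2 L hL
    have hcard : (pairs full β X).ncard = ((Pool.Agent.P8H18.MF.box β X ×ˢ
        Pool.Agent.P8H18.MF.box β X).filter
          (fun p => Pool.Agent.P8H18.MF.Red full p.1 p.2)).card := by
      rw [pairs_eq', Set.ncard_coe_finset]
    have hcard2 : {p | p ∈ pairs full β X ∧ ¬ Pool.Agent.P8H18.AA.Small L X p.1 p.2}.ncard =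
        ((Pool.Agent.P8H18.MF.box β X ×ˢ Pool.Agent.P8H18.MF.box β X).filter
          (fun p => Pool.Agent.P8H18.MF.Red full p.1 p.2 ∧
            ¬ Pool.Agent.P8H18.AA.Small L X p.1 p.2)).card := by
      rw [pairs_eq full β X (fun a b => ¬ Pool.Agent.P8H18.AA.Small L X a b),
        Set.ncard_coe_finset]
      congr 1
      ext p
      simp only [Finset.mem_filter]
    rw [hcard]
    refine le_trans ?_ h3
    rw [← hcard2]
    have hfin : {p | p ∈ pairs full β X ∧ ¬ Pool.Agent.P8H18.AA.Small L X p.1 p.2}.Finite := by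
      rw [pairs_eq full β X (fun a b => ¬ Pool.Agent.P8H18.AA.Small L X a b)]
      exact Finset.finite_toSet _
    have hsub : {p | p ∈ pairs full β X ∧ ¬ Regular full (V p.1 p.2) X (DD K) (D3 K) L} ⊆
        {p | p ∈ pairs full β X ∧ ¬ Pool.Agent.P8H18.AA.Small L X p.1 p.2} := fun p hp =>
      ⟨hp.1, fun hs => hp.2 (regular_of_small hp.1.1 (hV _ _ hp.1.1) hX1 hL hs)⟩
    exact_mod_cast Set.ncard_le_ncard hsub hfin

end Pool.Agent.Results.MP_7ed9c3_nt.AlmostAllCurves
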