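import Pool.Agent.P8H9.EK.FinK

/-!
# MP_7ed9c3_nt, Q1: the limit law of the `L`-series of all elliptic curves over a number field

Let `K` be a number field with ring of integers `𝓞_K`. For `a, b ∈ 𝓞_K` let `L(E_{a,b}, s)` be the
`L`-series of `E_{a,b} : y² = x³ + a x + b` over `K`, the product of the `(1 - a_v q^{-s} + q^{1-2s})⁻¹`,
`q = N v`, over the primes `v` of `K` which do not divide `2 (4 a³ + 27 b²)`. It converges for
`Re s > 3/2`, and by the Hasse–Weil conjecture it continues to `ℂ`. The theorem determines the limit law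
of these functions, `(a, b)` running over all pairs, in the space of continuous functions on the half plane
`Re s > 3/2`, and shows that almost every function drawn from the limit law continues, without zeros, to
`Re s > 1`, but has no meromorphic continuation to a neighbourhood of any point of the line `Re s = 1`.
-/

set_option autoImplicit false

open NumberField Filter Topology MeasureTheory Pool.Agent.P8H9.AV Pool.Agent.P8H9.RD
  Pool.Agent.P8H9.EK

namespace Pool.Agent.Results.MP_7ed9c3_nt.LimitLawNaturalBoundary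

/-- **The limit law of the `L`-series of the elliptic curves over a number field has the natural
boundary `Re s = 1`.**  Let `K` be a number field and `B` a `ℤ`-basis of `𝓞_K × 𝓞_K`, with `k` elements;
for `c ∈ ℤ^k` let `(a, b) = pt B c ∈ 𝓞_K × 𝓞_K` be the pair with the coordinates `c`.  Let
`ω = (ω_p)_p` be random, the `ω_p ∈ (ℤ/p)^k`, `p` a rational prime, independent and uniformly distributed
(`mu k`), and let `LEHat B ω s` be the Euler product whose factor at the prime `v` of `K` is the Euler
factor at `v` of `L(E_{a,b}, s)` for `(a, b)` with coordinates reducing to `ω_p`, `p` below `v`.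

* `mu k` is a probability measure.
* The functions `Λ ω = LEHat B ω` and `L c = L(E_{a,b}, ·)`, `(a, b) = pt B c`, are continuous on the
  half plane `Re s > 3/2`, and for every continuous function `Φ` on the space of the continuous functions
  on this half plane (topology of uniform convergence on compact sets) the mean of `Φ (L c)` over the
  `c ∈ ℤ^k` in a box `|c_j| ≤ H_j` tends to the expectation of `Φ (Λ ω)` as all `H_j` tend to infinity.
* For almost every `ω`, `Λ ω` continues to a holomorphic function without zeros on `Re s > 1`.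
* For almost every `ω`, `Λ ω` has no meromorphic continuation to the union of the half plane `Re s > 1`
  and a disc around a point of the line `Re s = 1`. -/
theorem result (K : Type) [Field K] [NumberField K] (k : ℕ)
    (B : Module.Basis (Fin k) ℤ (𝓞 K × 𝓞 K)) :
    IsProbabilityMeasure (mu k) ∧
    (∃ (Λ : Om k → C({s : ℂ // 3 / 2 < s.re}, ℂ)) (L : (Fin k → ℤ) → C({s : ℂ // 3 / 2 < s.re}, ℂ)),
      (∀ ω s, Λ ω s = LEHat B ω s) ∧ (∀ c s, L c s = LE (pt B c).1 (pt B c).2 s) ∧
      ∀ Φ : C({s : ℂ // 3 / 2 < s.re}, ℂ) → ℂ, Continuous Φ →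
        Integrable (fun ω => Φ (Λ ω)) (mu k) ∧
        Tendsto (fun H : Fin k → ℕ => mean H fun c => Φ (L c)) atTop
          (𝓝 (∫ ω, Φ (Λ ω) ∂(mu k)))) ∧
    (∀ᵐ ω ∂(mu k), ∃ G : ℂ → ℂ, DifferentiableOn ℂ G {s : ℂ | 1 < s.re} ∧
      (∀ s : ℂ, 1 < s.re → G s ≠ 0) ∧ ∀ s : ℂ, 3 / 2 < s.re → G s = LEHat B ω s) ∧
    ∀ᵐ ω ∂(mu k), ∀ (w : ℂ) (r : ℝ), w.re = 1 → 0 < r →
      ¬ ∃ F : ℂ → ℂ, MeromorphicOn F ({s : ℂ | 1 < s.re} ∪ Metric.ball w r) ∧
        ∀ s : ℂ, 3 / 2 < s.re → F s = LEHat B ω s :=
  ⟨inferInstance, lawK B, continuesK B, boundaryK B⟩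

end Pool.Agent.Results.MP_7ed9c3_nt.LimitLawNaturalBoundary
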