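import Pool.Agent.P8H18.MF.LogGlob
import Pool.Agent.P8H18.MF.One
import Pool.Agent.P8H18.MF.Min

/-!
# All moments of the L-series over all elliptic curves over a number field

`K` is any number field.  The theorem is about the means of the `k`-th powers (`k` any complex number)
and of the logarithm of `L(E, s)` over all elliptic curves `E : y² = x³ + a x + b` over `K` with
`a`, `b` in boxes.  For `Re s > 3/2` the means converge, and the limits have analytic continuations
beyond the half plane of absolute convergence, as the Hasse-Weil conjecture predicts for every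
single curve.
-/

set_option autoImplicit false
set_option linter.unusedSectionVars false
open Classical

namespace Pool.Agent.Results.MP_7ed9c3_nt.MomentsOverAllCurves

open NumberField IsDedekindDomain Filter Topology

variable {K : Type} [Field K] [NumberField K]

/-- The equation `y² = x³ + a x + b`. -/
def short {R : Type} [CommRing R] (a b : R) : WeierstrassCurve R where
  a₁ := 0
  a₂ := 0
  a₃ := 0
  a₄ := a
  a₆ := b

/-- `V v` is, for every `v`, an integral model of `E` with discriminant minimal at `v`. -/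
def MinimalModels (E : WeierstrassCurve K)
    (V : HeightOneSpectrum (𝓞 K) → WeierstrassCurve (𝓞 K)) : Prop :=
  ∀ v : HeightOneSpectrum (𝓞 K),
    (∃ C : WeierstrassCurve.VariableChange K, C • E = (V v).map (algebraMap (𝓞 K) K)) ∧
    ∀ W : WeierstrassCurve (𝓞 K),
      (∃ C : WeierstrassCurve.VariableChange K, C • E = W.map (algebraMap (𝓞 K) K)) →
        ∀ n : ℕ, (V v).Δ ∈ v.asIdeal ^ n → W.Δ ∈ v.asIdeal ^ n

/-- The reciprocal of the Euler factor of the problem at `v`, computed from a model `W` that is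
minimal at `v`. -/
noncomputable def localPoly (W : WeierstrassCurve (𝓞 K)) (v : HeightOneSpectrum (𝓞 K)) (s : ℂ) : ℂ :=
  1 - ((((Ideal.absNorm v.asIdeal : ℕ) : ℤ) -
        ((Nat.card {p : (𝓞 K ⧸ v.asIdeal) × (𝓞 K ⧸ v.asIdeal) //
          p.2 ^ 2 + Ideal.Quotient.mk v.asIdeal W.a₁ * p.1 * p.2
            + Ideal.Quotient.mk v.asIdeal W.a₃ * p.2
          = p.1 ^ 3 + Ideal.Quotient.mk v.asIdeal W.a₂ * p.1 ^ 2
            + Ideal.Quotient.mk v.asIdeal W.a₄ * p.1
            + Ideal.Quotient.mk v.asIdeal W.a₆} : ℕ) : ℤ) : ℤ) : ℂ)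
        * ((Ideal.absNorm v.asIdeal : ℕ) : ℂ) ^ (-s)
    + (if W.Δ ∈ v.asIdeal then (0 : ℂ) else 1)
        * ((Ideal.absNorm v.asIdeal : ℕ) : ℂ) ^ (1 - 2 * s)

/-- The `L`-series of the problem, computed from the models `V v`; if `full` is false, the factors at
the primes above `6` are left out. -/
noncomputable def LSeries (full : Prop) (V : HeightOneSpectrum (𝓞 K) → WeierstrassCurve (𝓞 K))
    (s : ℂ) : ℂ :=
  ∏' v : HeightOneSpectrum (𝓞 K),
    if full ∨ (6 : 𝓞 K) ∉ v.asIdeal then (localPoly (V v) v s)⁻¹ else 1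

/-- The logarithm of the `L`-series. -/
noncomputable def logL (full : Prop) (V : HeightOneSpectrum (𝓞 K) → WeierstrassCurve (𝓞 K))
    (s : ℂ) : ℂ :=
  ∑' v : HeightOneSpectrum (𝓞 K),
    if full ∨ (6 : 𝓞 K) ∉ v.asIdeal then -Complex.log (localPoly (V v) v s) else 0

/-- The family: `y² = x³ + a x + b` is an elliptic curve, the equation is minimal at all primes that
do not divide `6`, and, if `full` holds, all primes `v` above `6` divide `a` and divide `b` exactly
once. -/
def Family (full : Prop) (a b : 𝓞 K) : Prop :=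
  4 * a ^ 3 + 27 * b ^ 2 ≠ 0 ∧ ∀ v : HeightOneSpectrum (𝓞 K),
    ((6 : 𝓞 K) ∈ v.asIdeal → full → a ∈ v.asIdeal ∧ b ∈ v.asIdeal ∧ b ∉ v.asIdeal ^ 2) ∧
      ((6 : 𝓞 K) ∉ v.asIdeal → ¬ (a ∈ v.asIdeal ^ 4 ∧ b ∈ v.asIdeal ^ 6))

/-- The pairs `(a, b)` of the family such that the coordinates of `a` in the basis `β` are at most
`N.1` and those of `b` at most `N.2` in absolute value. -/
def pairs {ι : Type} (full : Prop) (β : Module.Basis ι ℤ (𝓞 K)) (N : ℕ × ℕ) : Set (𝓞 K × 𝓞 K) :=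
  {p | Family full p.1 p.2 ∧ (∀ i, |β.repr p.1 i| ≤ N.1) ∧ ∀ i, |β.repr p.2 i| ≤ N.2}

/-- The mean of `f` over these pairs. -/
noncomputable def mean {ι : Type} (full : Prop) (β : Module.Basis ι ℤ (𝓞 K))
    (f : 𝓞 K → 𝓞 K → ℂ) (N : ℕ × ℕ) : ℂ :=
  (∑ᶠ p ∈ pairs full β N, f p.1 p.2) / ((pairs full β N).ncard : ℂ)

/-- The sum of `N v ^ (1 - 2s)` over the primes `v` that do not divide `6`; it differs from
`log ζ_K(2s-1)` by a function that is holomorphic for `Re s > 3/4`. -/
noncomputable def Z (K : Type) [Field K] [NumberField K] (s : ℂ) : ℂ :=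
  ∑' v : HeightOneSpectrum (𝓞 K),
    if (6 : 𝓞 K) ∈ v.asIdeal then 0 else ((Ideal.absNorm v.asIdeal : ℕ) : ℂ) ^ (1 - 2 * s)

section proof

open Pool.Agent.P8H18.MF Pool.Agent.H921R2.TatePole Pool.Agent.H341R2
open Pool.Agent.H341R2.EC (IsModel IsMinAt red aff)

theorem family_iff (full : Prop) (a b : 𝓞 K) : Family full a b ↔ Red full a b := Iff.rfl

theorem mean_eq {ι : Type} [Fintype ι] (full : Prop) (β : Module.Basis ι ℤ (𝓞 K))
    (f : 𝓞 K → 𝓞 K → ℂ) (N : ℕ × ℕ) : mean full β f N = meanR β full f N := by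
  have h : pairs full β N = (((box β N.1 ×ˢ box β N.2).filter
      (fun p => Red full p.1 p.2) : Finset (𝓞 K × 𝓞 K)) : Set (𝓞 K × 𝓞 K)) := by
    ext p
    rw [Finset.coe_filter]
    simp only [pairs, Set.mem_ofPred_eq, Finset.mem_product, mem_box]
    constructor
    · rintro ⟨h1, h2, h3⟩
      exact ⟨⟨h2, h3⟩, h1⟩
    · rintro ⟨⟨h2, h3⟩, h1⟩
      exact ⟨h1, h2, h3⟩
  unfold mean meanR
  rw [h, finsum_mem_coe_finset, Set.ncard_coe_finset]

theorem isMin {a b : 𝓞 K} {V : HeightOneSpectrum (𝓞 K) → WeierstrassCurve (𝓞 K)}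
    (hV : MinimalModels ((short a b).map (algebraMap (𝓞 K) K)) V) (v : HeightOneSpectrum (𝓞 K)) :
    IsMinAt ((sw a b).map (algebraMap (𝓞 K) K)) v (V v) := hV v

theorem localPoly_eq (W : WeierstrassCurve (𝓞 K)) (v : HeightOneSpectrum (𝓞 K)) (s : ℂ) :
    localPoly W v s = 1 - (((nm v : ℤ) - (aff (red v W) : ℤ) : ℤ) : ℂ) * xv v s +
      (if W.Δ ∈ v.asIdeal then (0 : ℂ) else 1) * ((nm v : ℂ) * xv v s ^ 2) := by
  have h1 : (nm v : ℂ) ≠ 0 := nm_ne v
  have h2 : ((nm v : ℕ) : ℂ) ^ (1 - 2 * s) = (nm v : ℂ) * xv v s ^ 2 := by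
    unfold xv
    rw [← Complex.cpow_nat_mul, sub_eq_add_neg, Complex.cpow_add _ _ h1, Complex.cpow_one]
    congr 2
    push_cast
    ring
  rw [← h2]
  rfl

theorem localPoly_away {full : Prop} {a b : 𝓞 K} (hf : Family full a b)
    {V : HeightOneSpectrum (𝓞 K) → WeierstrassCurve (𝓞 K)}
    (hV : MinimalModels ((short a b).map (algebraMap (𝓞 K) K)) V) (v : HeightOneSpectrum (𝓞 K))
    (h6 : (6 : 𝓞 K) ∉ v.asIdeal) (s : ℂ) : localPoly (V v) v s =
      lpol (Ideal.Quotient.mk v.asIdeal a) (Ideal.Quotient.mk v.asIdeal b) (xv v s) := by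
  obtain ⟨h1, h2⟩ := min_away hf.1 h6 ((hf.2 v).2 h6) (isMin hV v)
  rw [localPoly_eq, h1]
  unfold lpol tr
  have h3 := card_v v
  by_cases hD : (V v).Δ ∈ v.asIdeal
  · rw [if_pos hD, ep_true (h2.1 hD)]
    simp only [h3]
  · rw [if_neg hD, ep_false (fun h => hD (h2.2 h))]
    simp only [h3]

theorem localPoly_six {a b : 𝓞 K} (hf : Family True a b)
    {V : HeightOneSpectrum (𝓞 K) → WeierstrassCurve (𝓞 K)}
    (hV : MinimalModels ((short a b).map (algebraMap (𝓞 K) K)) V) (v : HeightOneSpectrum (𝓞 K))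
    (h6 : (6 : 𝓞 K) ∈ v.asIdeal) (s : ℂ) : localPoly (V v) v s = 1 := by
  obtain ⟨ha, hb, hb2⟩ := (hf.2 v).1 h6 trivial
  obtain ⟨h1, h2⟩ := min_six hf.1 h6 ha hb hb2 (isMin hV v)
  have h3 : Nat.card (𝓞 K ⧸ v.asIdeal) = nm v := by
    rw [Nat.card_eq_fintype_card]
    exact card_v v
  rw [localPoly_eq, h1, h3, if_pos h2, sub_self]
  simp

theorem logL_eq {full : Prop} {a b : 𝓞 K} (hf : Family full a b)
    {V : HeightOneSpectrum (𝓞 K) → WeierstrassCurve (𝓞 K)}
    (hV : MinimalModels ((short a b).map (algebraMap (𝓞 K) K)) V) (s : ℂ) :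
    logL full V s = ∑' v : HeightOneSpectrum (𝓞 K), lv s v a b := by
  unfold logL lv
  refine tsum_congr fun v => ?_
  by_cases h6 : (6 : 𝓞 K) ∈ v.asIdeal
  · rw [if_pos h6]
    by_cases hfull : full
    · have hf' : Family True a b := by
        have : full = True := eq_true hfull
        rwa [this] at hf
      rw [if_pos (Or.inl hfull), localPoly_six hf' hV v h6, Complex.log_one, neg_zero]
    · rw [if_neg (by rintro (h | h); exacts [hfull h, h h6])]
  · rw [if_neg h6, if_pos (Or.inr h6), localPoly_away hf hV v h6]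
    rfl

theorem LSeries_eq {full : Prop} {a b : 𝓞 K} (hf : Family full a b)
    {V : HeightOneSpectrum (𝓞 K) → WeierstrassCurve (𝓞 K)}
    (hV : MinimalModels ((short a b).map (algebraMap (𝓞 K) K)) V) {s : ℂ} (hs : 3 / 2 < s.re) :
    LSeries full V s = Complex.exp (logL full V s) := by
  have h := tprod_psi 1 hs a b
  rw [one_mul, ← logL_eq hf hV s] at h
  rw [← h.tprod_eq]
  unfold LSeries psi
  refine tprod_congr fun v => ?_
  by_cases h6 : (6 : 𝓞 K) ∈ v.asIdeal
  · rw [if_pos h6]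
    by_cases hfull : full
    · have hf' : Family True a b := by
        have : full = True := eq_true hfull
        rwa [this] at hf
      rw [if_pos (Or.inl hfull), localPoly_six hf' hV v h6, inv_one]
    · rw [if_neg (by rintro (h | h); exacts [hfull h, h h6])]
  · rw [if_neg h6, if_pos (Or.inr h6), localPoly_away hf hV v h6]
    unfold Pool.Agent.P8H18.MF.lp
    rw [Complex.cpow_neg_one]

theorem meanR_congr {ι : Type} [Fintype ι] (full : Prop) (β : Module.Basis ι ℤ (𝓞 K))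
    {f g : 𝓞 K → 𝓞 K → ℂ} (h : ∀ a b, Family full a b → f a b = g a b) (N : ℕ × ℕ) :
    meanR β full f N = meanR β full g N := by
  unfold meanR
  congr 1
  refine Finset.sum_congr rfl fun p hp => ?_
  rw [Finset.mem_filter] at hp
  exact h _ _ hp.2

theorem Z_eq (s : ℂ) : Z K s = ∑' v : HeightOneSpectrum (𝓞 K), zv s v := rfl

theorem moments {ι : Type} [Fintype ι] (full : Prop) (β : Module.Basis ι ℤ (𝓞 K))
    (V : 𝓞 K → 𝓞 K → HeightOneSpectrum (𝓞 K) → WeierstrassCurve (𝓞 K))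
    (hV : ∀ a b : 𝓞 K, Family full a b →
      MinimalModels ((short a b).map (algebraMap (𝓞 K) K)) (V a b))
    {s : ℂ} (hs : 3 / 2 < s.re) (k : ℂ) :
    Tendsto (mean full β fun a b => Complex.exp (k * logL full (V a b) s)) atTop
      (𝓝 (Mf K k s)) := by
  refine (meanR_tendsto β full k hs).congr fun N => ?_
  rw [mean_eq]
  refine (meanR_congr full β (fun a b hf => ?_) N).symm
  rw [(tprod_psi k hs a b).tprod_eq, logL_eq hf (hV a b hf) s]

theorem logs {ι : Type} [Fintype ι] (full : Prop) (β : Module.Basis ι ℤ (𝓞 K))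
    (V : 𝓞 K → 𝓞 K → HeightOneSpectrum (𝓞 K) → WeierstrassCurve (𝓞 K))
    (hV : ∀ a b : 𝓞 K, Family full a b →
      MinimalModels ((short a b).map (algebraMap (𝓞 K) K)) (V a b))
    {s : ℂ} (hs : 3 / 2 < s.re) :
    Tendsto (mean full β fun a b => logL full (V a b) s) atTop (𝓝 (Df K s)) := by
  refine (meanR_log β full hs).congr fun N => ?_
  rw [mean_eq]
  refine (meanR_congr full β (fun a b hf => ?_) N).symm
  rw [logL_eq hf (hV a b hf) s]

theorem Mf_pos (k : ℝ) {σ : ℝ} (hσ : 1 < σ) : ∃ m : ℝ, 0 < m ∧ Mf K (k : ℂ) (σ : ℂ) = m := by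
  obtain ⟨g, hg, hg2⟩ := Gf_pos (K := K) k (σ := σ) (by linarith)
  refine ⟨g * Real.exp (k * (k - 1) / 2 * Zr K σ), by positivity, ?_⟩
  rw [Mf_eq' (k : ℂ) (s := (σ : ℂ)) (by simpa using hσ), hg2, Zr_eq]
  push_cast
  rfl

end proof

/-- **All moments of the L-series over all elliptic curves over a number field.**  Let `K` be a number
field.  There are functions `M k` (`k` complex) and `Λ` such that the following holds.
1. For every `ℤ`-basis `β` of the ring of integers, all choices of minimal models and `Re s > 3/2`: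
`exp (log L(E, s)) = L(E, s)`, the mean of `L(E, s)^k = exp (k log L(E, s))` over the curves of the family
with `(a, b)` in a box tends to `M k s`, and the mean of `log L(E, s)` to `Λ s`, if the sides of the boxes
tend to infinity.  This holds for the family of all equations minimal away from `6`, with the
`L`-series without the factors at the primes above `6` (`full` false), and for the family with the
condition at the primes above `6`, with the `L`-series of the problem (`full` true).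
2. `M k` is holomorphic for `Re s > 1`, and `M k s = G s * exp (k(k-1)/2 * Z s)` there, with `G` holomorphic
for `Re s > 3/4`; so the singularity of `M k` at `s = 1` is that of `ζ_K(2s-1)^(k(k-1)/2)`.
3. `M 1`, the limit of the means of `L(E, s)`, has an analytic continuation to `Re s > 2/3`, beyond the
centre `s = 1`, and is positive at all real points `> 2/3`.
4. For real `k`, `M k` is positive on the real axis right of `1`, and
`log M k σ = -k(k-1)/2 * log (σ - 1) + O(1)` for `σ → 1+`.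
5. `Λ s + Z s / 2` is holomorphic for `Re s > 3/4`, and `Λ σ = 1/2 * log (σ - 1) + O(1)` for `σ → 1+`: the
geometric mean of the `L`-series, continued to the centre, has there a zero of order `1/2`. -/
theorem result (K : Type) [Field K] [NumberField K] : ∃ (M : ℂ → ℂ → ℂ) (Λ : ℂ → ℂ),
    (∀ (full : Prop) {ι : Type} [Fintype ι] (β : Module.Basis ι ℤ (𝓞 K))
      (V : 𝓞 K → 𝓞 K → HeightOneSpectrum (𝓞 K) → WeierstrassCurve (𝓞 K)),
      (∀ a b : 𝓞 K, Family full a b →
        MinimalModels ((short a b).map (algebraMap (𝓞 K) K)) (V a b)) →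
      ∀ s : ℂ, 3 / 2 < s.re →
        (∀ a b : 𝓞 K, Family full a b →
          Complex.exp (logL full (V a b) s) = LSeries full (V a b) s) ∧
        (∀ k : ℂ, Tendsto (mean full β fun a b => Complex.exp (k * logL full (V a b) s)) atTop
          (𝓝 (M k s))) ∧
        Tendsto (mean full β fun a b => logL full (V a b) s) atTop (𝓝 (Λ s))) ∧
    (∀ k : ℂ, DifferentiableOn ℂ (M k) {s | 1 < s.re} ∧
      ∃ G : ℂ → ℂ, DifferentiableOn ℂ G {s | 3 / 4 < s.re} ∧
        ∀ s : ℂ, 1 < s.re → M k s = G s * Complex.exp (k * (k - 1) / 2 * Z K s)) ∧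
    (DifferentiableOn ℂ (M 1) {s | 2 / 3 < s.re} ∧
      ∀ σ : ℝ, 2 / 3 < σ → ∃ m : ℝ, 0 < m ∧ M 1 σ = m) ∧
    (∀ k : ℝ, (∀ σ : ℝ, 1 < σ → ∃ m : ℝ, 0 < m ∧ M k σ = m) ∧
      ∃ C : ℝ, ∀ᶠ σ : ℝ in 𝓝[>] 1,
        |Real.log ‖M k σ‖ + k * (k - 1) / 2 * Real.log (σ - 1)| ≤ C) ∧
    (DifferentiableOn ℂ Λ {s | 1 < s.re} ∧
      (∃ G : ℂ → ℂ, DifferentiableOn ℂ G {s | 3 / 4 < s.re} ∧
        ∀ s : ℂ, 1 < s.re → Λ s = G s - 1 / 2 * Z K s) ∧
      ∃ C : ℝ, ∀ᶠ σ : ℝ in 𝓝[>] 1, ‖Λ σ - 1 / 2 * Real.log (σ - 1)‖ ≤ C) := by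
  refine ⟨Pool.Agent.P8H18.MF.Mf K, Pool.Agent.P8H18.MF.Df K, ?_, ?_, ⟨?_, ?_⟩, ?_, ?_, ?_, ?_⟩
  · intro full ι _ β V hV s hs
    exact ⟨fun a b hf => (LSeries_eq hf (hV a b hf) hs).symm, moments full β V hV hs,
      logs full β V hV hs⟩
  · exact fun k => ⟨Pool.Agent.P8H18.MF.Mf_diff k, Pool.Agent.P8H18.MF.Gf K k,
      Pool.Agent.P8H18.MF.Gf_diff k, fun s hs => Pool.Agent.P8H18.MF.Mf_eq' k hs⟩
  · exact Pool.Agent.P8H18.MF.Mf_one_diff
  · exact fun σ hσ => Pool.Agent.P8H18.MF.Mf_one_pos hσ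
  · intro k
    refine ⟨fun σ hσ => Mf_pos k hσ, ?_⟩
    obtain ⟨C, hC⟩ := Pool.Agent.P8H18.MF.Mf_asym (K := K) k
    refine ⟨C, ?_⟩
    filter_upwards [hC] with σ hσ
    obtain ⟨m, hm, h1, h2⟩ := hσ
    rw [h1, Complex.norm_real, Real.norm_of_nonneg hm.le]
    exact h2
  · exact Pool.Agent.P8H18.MF.Df_diff
  · exact ⟨Pool.Agent.P8H18.MF.Rf K, Pool.Agent.P8H18.MF.Rf_diff,
      fun s hs => Pool.Agent.P8H18.MF.Df_eq hs⟩
  · exact Pool.Agent.P8H18.MF.Df_asym

end Pool.Agent.Results.MP_7ed9c3_nt.MomentsOverAllCurves
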