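import Pool.Agent.P8H18.UE.Fin
import Pool.Agent.P8H18.UE.Dual
import Pool.Agent.P8H18.UE.LD
import Pool.Agent.P8H18.UE.Fam
import Pool.Agent.P8H18.MF.Min

/-!
# Universality of the Euler products of the elliptic curves over a number field

`K` is any number field.  The Euler product of `L(E, s)` converges absolutely for `Re s > 3/2` only; for a
general `K` it is not known that a single `L(E, s)` can be continued beyond this line.  The theorem shows
that in the strip `1 < Re s < 3/2` the Euler products of the elliptic curves `y² = x³ + a x + b` over `K`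
are universal: for a positive proportion of all curves the products over the primes `v` with
`N v ≤ y`, for all `y` between a constant and `X^(1/5)`, are uniformly close to a given zero-free function.

Joint work of helper18 and helper43.
-/

set_option autoImplicit false
set_option linter.unusedSectionVars false
open Classical

namespace Pool.Agent.Results.MP_7ed9c3_nt.UniversalityOfEulerProducts

open NumberField IsDedekindDomain Filter Topology

variable {K : Type} [Field K] [NumberField K]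

/-- The equation `y² = x³ + a x + b`. -/
def short {R : Type} [CommRing R] (a b : R) : WeierstrassCurve R where
  a₁ := 0
  a₂ := 0
  a₃ := 0
  a₄ := a
  a₆ := b

/-- `V v` is, for every `v`, an integral model of `E` with discriminant minimal at `v`. -/
def MinimalModels (E : WeierstrassCurve K)
    (V : HeightOneSpectrum (𝓞 K) → WeierstrassCurve (𝓞 K)) : Prop :=
  ∀ v : HeightOneSpectrum (𝓞 K),
    (∃ C : WeierstrassCurve.VariableChange K, C • E = (V v).map (algebraMap (𝓞 K) K)) ∧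
    ∀ W : WeierstrassCurve (𝓞 K),
      (∃ C : WeierstrassCurve.VariableChange K, C • E = W.map (algebraMap (𝓞 K) K)) →
        ∀ n : ℕ, (V v).Δ ∈ v.asIdeal ^ n → W.Δ ∈ v.asIdeal ^ n

/-- `a_v = N v - #(affine points of the reduction)`, computed from a model `W` that is minimal at
`v`. -/
noncomputable def trace (W : WeierstrassCurve (𝓞 K)) (v : HeightOneSpectrum (𝓞 K)) : ℤ :=
  ((Ideal.absNorm v.asIdeal : ℕ) : ℤ) -
    ((Nat.card {p : (𝓞 K ⧸ v.asIdeal) × (𝓞 K ⧸ v.asIdeal) //
      p.2 ^ 2 + Ideal.Quotient.mk v.asIdeal W.a₁ * p.1 * p.2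
        + Ideal.Quotient.mk v.asIdeal W.a₃ * p.2
      = p.1 ^ 3 + Ideal.Quotient.mk v.asIdeal W.a₂ * p.1 ^ 2
        + Ideal.Quotient.mk v.asIdeal W.a₄ * p.1
        + Ideal.Quotient.mk v.asIdeal W.a₆} : ℕ) : ℤ)

/-- The reciprocal of the Euler factor of the problem at `v`, computed from a model `W` that is
minimal at `v`. -/
noncomputable def localPoly (W : WeierstrassCurve (𝓞 K)) (v : HeightOneSpectrum (𝓞 K)) (s : ℂ) : ℂ :=
  1 - (trace W v : ℂ) * ((Ideal.absNorm v.asIdeal : ℕ) : ℂ) ^ (-s)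
    + (if W.Δ ∈ v.asIdeal then (0 : ℂ) else 1)
        * ((Ideal.absNorm v.asIdeal : ℕ) : ℂ) ^ (1 - 2 * s)

/-- The product of the Euler factors of the problem at the primes `v` with `N v ≤ y`, computed from the
models `V v`; if `full` is false, the primes above `6` are left out. -/
noncomputable def eulerProduct (full : Prop) (V : HeightOneSpectrum (𝓞 K) → WeierstrassCurve (𝓞 K))
    (s : ℂ) (y : ℝ) : ℂ :=
  ∏ᶠ v ∈ {v : HeightOneSpectrum (𝓞 K) | ((Ideal.absNorm v.asIdeal : ℕ) : ℝ) ≤ y},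
    if full ∨ (6 : 𝓞 K) ∉ v.asIdeal then (localPoly (V v) v s)⁻¹ else 1

/-- The family: `y² = x³ + a x + b` is an elliptic curve, the equation is minimal at all primes that
do not divide `6`, and, if `full` holds, all primes `v` above `6` divide `a` and divide `b` exactly
once. -/
def Family (full : Prop) (a b : 𝓞 K) : Prop :=
  4 * a ^ 3 + 27 * b ^ 2 ≠ 0 ∧ ∀ v : HeightOneSpectrum (𝓞 K),
    ((6 : 𝓞 K) ∈ v.asIdeal → full → a ∈ v.asIdeal ∧ b ∈ v.asIdeal ∧ b ∉ v.asIdeal ^ 2) ∧
      ((6 : 𝓞 K) ∉ v.asIdeal → ¬ (a ∈ v.asIdeal ^ 4 ∧ b ∈ v.asIdeal ^ 6))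

/-- The pairs `(a, b)` of the family such that the coordinates of `a` and `b` in the basis `β` are at
most `X` in absolute value. -/
def pairs {ι : Type} (full : Prop) (β : Module.Basis ι ℤ (𝓞 K)) (X : ℕ) : Set (𝓞 K × 𝓞 K) :=
  {p | Family full p.1 p.2 ∧ (∀ i, |β.repr p.1 i| ≤ X) ∧ ∀ i, |β.repr p.2 i| ≤ X}

/-- The closed rectangle `a ≤ Re s ≤ b`, `|Im s| ≤ B`. -/
def rect (a b B : ℝ) : Set ℂ := {s : ℂ | a ≤ s.re ∧ s.re ≤ b ∧ |s.im| ≤ B}

/-- The targets: zero-free functions on the rectangle, continuous, holomorphic in the interior, real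
(`f (conj s) = conj (f s)`) and positive on the real axis. -/
def Target (a b B : ℝ) (f : ℂ → ℂ) : Prop :=
  ContinuousOn f (rect a b B) ∧ DifferentiableOn ℂ f (interior (rect a b B)) ∧
    (∀ s ∈ rect a b B, f s ≠ 0) ∧
    (∀ s ∈ rect a b B, f ((starRingEnd ℂ) s) = (starRingEnd ℂ) (f s)) ∧
    ∀ x : ℝ, a ≤ x → x ≤ b → 0 < (f x).re

section proof

open Pool.Agent.P8H18.MF Pool.Agent.P8H18.AA Pool.Agent.H921R2.TatePole Pool.Agent.H341R2
open Pool.Agent.H341R2.EC (IsModel IsMinAt red aff)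

theorem isMin {a b : 𝓞 K} {V : HeightOneSpectrum (𝓞 K) → WeierstrassCurve (𝓞 K)}
    (hV : MinimalModels ((short a b).map (algebraMap (𝓞 K) K)) V) (v : HeightOneSpectrum (𝓞 K)) :
    IsMinAt ((sw a b).map (algebraMap (𝓞 K) K)) v (V v) := hV v

theorem trace_eq (W : WeierstrassCurve (𝓞 K)) (v : HeightOneSpectrum (𝓞 K)) :
    trace W v = (nm v : ℤ) - (aff (red v W) : ℤ) := rfl

theorem card_v' (v : HeightOneSpectrum (𝓞 K)) : Nat.card (𝓞 K ⧸ v.asIdeal) = nm v := by
  rw [Nat.card_eq_fintype_card]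
  exact card_v v

theorem trace_away {full : Prop} {a b : 𝓞 K} (hf : Family full a b)
    {V : HeightOneSpectrum (𝓞 K) → WeierstrassCurve (𝓞 K)}
    (hV : MinimalModels ((short a b).map (algebraMap (𝓞 K) K)) V) (v : HeightOneSpectrum (𝓞 K))
    (h6 : (6 : 𝓞 K) ∉ v.asIdeal) : trace (V v) v =
      tr (Ideal.Quotient.mk v.asIdeal a) (Ideal.Quotient.mk v.asIdeal b) := by
  obtain ⟨h1, h2⟩ := min_away hf.1 h6 ((hf.2 v).2 h6) (isMin hV v)
  rw [trace_eq, h1]
  unfold tr
  have h3 := card_v v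
  simp only [h3]

theorem trace_six {full : Prop} (hfull : full) {a b : 𝓞 K} (hf : Family full a b)
    {V : HeightOneSpectrum (𝓞 K) → WeierstrassCurve (𝓞 K)}
    (hV : MinimalModels ((short a b).map (algebraMap (𝓞 K) K)) V) (v : HeightOneSpectrum (𝓞 K))
    (h6 : (6 : 𝓞 K) ∈ v.asIdeal) : trace (V v) v = 0 ∧ (V v).Δ ∈ v.asIdeal := by
  obtain ⟨ha, hb, hb2⟩ := (hf.2 v).1 h6 hfull
  obtain ⟨h1, h2⟩ := min_six hf.1 h6 ha hb hb2 (isMin hV v)
  refine ⟨?_, h2⟩
  rw [trace_eq, h1, card_v', sub_self]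

theorem pow_eq (v : HeightOneSpectrum (𝓞 K)) (s : ℂ) :
    ((Ideal.absNorm v.asIdeal : ℕ) : ℂ) ^ (1 - 2 * s) = (nm v : ℂ) * xv v s ^ 2 := by
  have h1 : (nm v : ℂ) ≠ 0 := nm_ne v
  have h2 : ((nm v : ℕ) : ℂ) ^ (1 - 2 * s) = (nm v : ℂ) * xv v s ^ 2 := by
    unfold xv
    rw [← Complex.cpow_nat_mul, sub_eq_add_neg, Complex.cpow_add _ _ h1, Complex.cpow_one]
    congr 2
    push_cast
    ring
  exact h2

theorem log_eq {full : Prop} {a b : 𝓞 K} (hf : Family full a b)
    {V : HeightOneSpectrum (𝓞 K) → WeierstrassCurve (𝓞 K)}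
    (hV : MinimalModels ((short a b).map (algebraMap (𝓞 K) K)) V)
    (v : HeightOneSpectrum (𝓞 K)) (s : ℂ) :
    (if full ∨ (6 : 𝓞 K) ∉ v.asIdeal then -Complex.log (localPoly (V v) v s) else 0) =
      lv s v a b := by
  unfold lv
  by_cases h6 : (6 : 𝓞 K) ∈ v.asIdeal
  · rw [if_pos h6]
    by_cases hfull : full
    · obtain ⟨h1, h2⟩ := trace_six hfull hf hV v h6
      have h3 : localPoly (V v) v s = 1 := by
        unfold localPoly
        rw [h1, if_pos h2]
        simp
      rw [if_pos (Or.inl hfull), h3, Complex.log_one, neg_zero]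
    · rw [if_neg (by rintro (h | h); exacts [hfull h, h h6])]
  · rw [if_neg h6, if_pos (Or.inr h6)]
    obtain ⟨_, h2⟩ := min_away hf.1 h6 ((hf.2 v).2 h6) (isMin hV v)
    have h3 : localPoly (V v) v s =
        lpol (Ideal.Quotient.mk v.asIdeal a) (Ideal.Quotient.mk v.asIdeal b) (xv v s) := by
      unfold localPoly lpol
      rw [trace_away hf hV v h6, pow_eq]
      have h3 := card_v v
      by_cases hD : (V v).Δ ∈ v.asIdeal
      · rw [if_pos hD, ep_true (h2.1 hD)]
        simp only [h3]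
        rfl
      · rw [if_neg hD, ep_false (fun h => hD (h2.2 h))]
        simp only [h3]
        rfl
    rw [h3]
    rfl

theorem lv_six {v : HeightOneSpectrum (𝓞 K)} (h6 : (6 : 𝓞 K) ∈ v.asIdeal) (a b : 𝓞 K) (s : ℂ) :
    lv s v a b = 0 := by
  unfold lv
  rw [if_pos h6]

theorem factor_eq {full : Prop} {a b : 𝓞 K} (hf : Family full a b)
    {V : HeightOneSpectrum (𝓞 K) → WeierstrassCurve (𝓞 K)}
    (hV : MinimalModels ((short a b).map (algebraMap (𝓞 K) K)) V)
    (v : HeightOneSpectrum (𝓞 K)) {s : ℂ} (hs : 1 / 2 < s.re) :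
    (if full ∨ (6 : 𝓞 K) ∉ v.asIdeal then (localPoly (V v) v s)⁻¹ else 1) =
      Complex.exp (lv s v a b) := by
  rw [← log_eq hf hV v s]
  by_cases h6 : full ∨ (6 : 𝓞 K) ∉ v.asIdeal
  · rw [if_pos h6, if_pos h6, Complex.exp_neg, Complex.exp_log]
    by_cases h6' : (6 : 𝓞 K) ∈ v.asIdeal
    · have hfull : full := by
        rcases h6 with h | h
        · exact h
        · exact absurd h6' h
      obtain ⟨h1, h2⟩ := trace_six hfull hf hV v h6'
      unfold localPoly
      rw [h1, if_pos h2]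
      simp
    · obtain ⟨_, h2⟩ := min_away hf.1 h6' ((hf.2 v).2 h6') (isMin hV v)
      have h3 : localPoly (V v) v s =
          lpol (Ideal.Quotient.mk v.asIdeal a) (Ideal.Quotient.mk v.asIdeal b) (xv v s) := by
        unfold localPoly lpol
        rw [trace_away hf hV v h6', pow_eq]
        have h3 := card_v v
        by_cases hD : (V v).Δ ∈ v.asIdeal
        · rw [if_pos hD, ep_true (h2.1 hD)]
          simp only [h3]
          rfl
        · rw [if_neg hD, ep_false (fun h => hD (h2.2 h))]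
          simp only [h3]
          rfl
      rw [h3]
      exact lpol_ne (six_ne h6') _ _ (sz_lt_one v (by linarith))
  · rw [if_neg h6, if_neg h6, Complex.exp_zero]

theorem eulerProduct_eq {full : Prop} {a b : 𝓞 K} (hf : Family full a b)
    {V : HeightOneSpectrum (𝓞 K) → WeierstrassCurve (𝓞 K)}
    (hV : MinimalModels ((short a b).map (algebraMap (𝓞 K) K)) V) {s : ℂ} (hs : 1 / 2 < s.re)
    {y : ℝ} (hy : 0 ≤ y) :
    eulerProduct full V s y = Complex.exp (∑ v ∈ Pr K (⌊y⌋₊ + 1), lv s v a b) := by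
  unfold eulerProduct
  simp_rw [factor_eq hf hV _ hs]
  rw [Complex.exp_sum]
  refine finprod_mem_eq_prod_of_inter_mulSupport_eq _ ?_
  ext v
  simp only [Set.mem_inter_iff, Set.mem_ofPred_eq, Function.mem_mulSupport, Finset.mem_coe, mem_Pr]
  constructor
  · rintro ⟨h1, h2⟩
    refine ⟨⟨?_, fun h6 => h2 (by rw [lv_six h6 a b s, Complex.exp_zero])⟩, h2⟩
    exact Nat.lt_succ_of_le (Nat.le_floor h1)
  · rintro ⟨⟨h1, _⟩, h2⟩
    exact ⟨(Nat.le_floor_iff hy).1 (Nat.lt_succ_iff.1 h1), h2⟩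

theorem pairs_eq {ι : Type} [Fintype ι] (full : Prop) (β : Module.Basis ι ℤ (𝓞 K)) (X : ℕ)
    (P : 𝓞 K → 𝓞 K → Prop) : {p | p ∈ pairs full β X ∧ P p.1 p.2} =
      ((((box β X ×ˢ box β X).filter (fun p => Red full p.1 p.2 ∧ P p.1 p.2)) :
        Finset (𝓞 K × 𝓞 K)) : Set (𝓞 K × 𝓞 K)) := by
  ext p
  rw [Finset.coe_filter]
  simp only [pairs, Set.mem_ofPred_eq, Finset.mem_product, mem_box]
  constructor
  · rintro ⟨⟨h1, h2, h3⟩, h4⟩
    exact ⟨⟨h2, h3⟩, h1, h4⟩
  · rintro ⟨⟨h2, h3⟩, h1, h4⟩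
    exact ⟨⟨h1, h2, h3⟩, h4⟩

theorem pairs_eq' {ι : Type} [Fintype ι] (full : Prop) (β : Module.Basis ι ℤ (𝓞 K)) (X : ℕ) :
    pairs full β X = (((box β X ×ˢ box β X).filter (fun p => Red full p.1 p.2) :
        Finset (𝓞 K × 𝓞 K)) : Set (𝓞 K × 𝓞 K)) := by
  have h := pairs_eq full β X (fun _ _ => True)
  simpa using h

end proof

/-- **Universality of the Euler products of the elliptic curves over `K`.**  Let `K` be a number field, `β` a
`ℤ`-basis of its ring of integers, `R = {a ≤ Re s ≤ b, |Im s| ≤ B}` a rectangle in the strip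
`1 < Re s < 3/2`, and `f` a zero-free function on `R`, continuous, holomorphic in the interior, real and
positive on the real axis.  For all `ε > 0` there are `δ > 0` and `Y₀` such that for all large `X` and all
choices of minimal models, at least the proportion `δ` of the curves `y² = x³ + a x + b` of the family
with coordinates of `a`, `b` at most `X` have the following property: for all `y` with
`Y₀ ≤ y ≤ X^(1/5)` the Euler product of `L(E, s)` over the primes `v` with `N v ≤ y` differs from `f` by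
at most `ε` on `R`.  This holds for the family of all equations minimal away from `6` (`full` false, the
primes above `6` left out) and for the family with the condition at the primes above `6` (`full`
true, all primes). -/
theorem result (K : Type) [Field K] [NumberField K] {ι : Type} [Fintype ι]
    (β : Module.Basis ι ℤ (𝓞 K)) (full : Prop) {a b B : ℝ} (ha : 1 < a) (hab : a < b)
    (hb : b < 3 / 2) (hB : 0 < B) {f : ℂ → ℂ} (hf : Target a b B f) {ε : ℝ} (hε : 0 < ε) :
    ∃ (δ Y₀ : ℝ) (X₀ : ℕ), 0 < δ ∧ ∀ X : ℕ, X₀ ≤ X →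
    0 < (pairs full β X).ncard ∧
    ∀ V : 𝓞 K → 𝓞 K → HeightOneSpectrum (𝓞 K) → WeierstrassCurve (𝓞 K),
      (∀ a b : 𝓞 K, Family full a b →
        MinimalModels ((short a b).map (algebraMap (𝓞 K) K)) (V a b)) →
      δ * (pairs full β X).ncard ≤
        ({p | p ∈ pairs full β X ∧ ∀ y : ℝ, Y₀ ≤ y → y ^ 5 ≤ X → ∀ s ∈ rect a b B,
          ‖eulerProduct full (V p.1 p.2) s y - f s‖ ≤ ε}.ncard : ℝ) := by
  obtain ⟨hc, hd, h0, hsym, hpos⟩ := hf
  obtain ⟨δ, hδ, Y₀, X₁, h⟩ := Pool.Agent.P8H18.UE.main' (Pool.Agent.P8H18.UE.ld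
    Pool.Agent.P8H18.UE.dual) Pool.Agent.P8H18.UE.fam β full ha hab hb hB hc hd h0 hsym hpos hε
  obtain ⟨_, _, X₂, hX₂⟩ := Pool.Agent.P8H18.AA.main_count (K := K) β full
  refine ⟨δ, max Y₀ 1, max X₁ X₂, hδ, fun X hX => ?_⟩
  have h1 := h X (le_of_max_le_left hX)
  obtain ⟨h2, _⟩ := hX₂ X (le_of_max_le_right hX)
  refine ⟨?_, fun V hV => ?_⟩
  · rw [pairs_eq', Set.ncard_coe_finset]
    exact h2
  · have hcard : ((pairs full β X).ncard : ℝ) ≤
        ((Pool.Agent.P8H18.MF.box β X).card : ℝ) ^ 2 := by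
      rw [pairs_eq', Set.ncard_coe_finset]
      have := Finset.card_filter_le (Pool.Agent.P8H18.MF.box β X ×ˢ Pool.Agent.P8H18.MF.box β X)
        (fun p => Pool.Agent.P8H18.MF.Red full p.1 p.2)
      rw [Finset.card_product] at this
      rw [sq]
      exact_mod_cast this
    refine (mul_le_mul_of_nonneg_left hcard hδ.le).trans (h1.trans ?_)
    have hfin : {p | p ∈ pairs full β X ∧ ∀ y : ℝ, max (Y₀ : ℝ) 1 ≤ y → y ^ 5 ≤ X →
        ∀ s ∈ rect a b B, ‖eulerProduct full (V p.1 p.2) s y - f s‖ ≤ ε}.Finite := by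
      refine Set.Finite.subset (s := pairs full β X) ?_ fun p hp => hp.1
      rw [pairs_eq']
      exact Finset.finite_toSet _
    refine Nat.cast_le.2 (Set.ncard_le_ncard ?_ hfin)
    rintro p ⟨h3, h4, h5, h6⟩
    have hp : p ∈ pairs full β X := by
      rw [pairs_eq']
      exact Finset.mem_coe.2 (Finset.mem_filter.2 ⟨Finset.mem_product.2 ⟨h3, h4⟩, h5⟩)
    refine ⟨hp, fun y hy hyX s hs => ?_⟩
    have hy1 : (1 : ℝ) ≤ y := (le_max_right _ _).trans hy
    have hyY : (Y₀ : ℝ) ≤ y := (le_max_left _ _).trans hy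
    have hs1 : 1 / 2 < s.re := by
      have := hs.1
      linarith
    rw [eulerProduct_eq hp.1 (hV _ _ hp.1) hs1 (by linarith)]
    refine h6 ⌊y⌋₊ (Nat.le_floor hyY) ?_ s hs
    have h7 : ((⌊y⌋₊ : ℕ) : ℝ) ^ 5 ≤ y ^ 5 := by
      gcongr
      exact Nat.floor_le (by linarith)
    exact_mod_cast h7.trans hyX

end Pool.Agent.Results.MP_7ed9c3_nt.UniversalityOfEulerProducts
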